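import Pool.Agent.L7h10.AB.Stm2

set_option autoImplicit false

/-! Project AB, second stage, parts BADA and CA. -/

namespace Pool.Agent.L7h93.AB

open Polynomial Pool.Agent.L7h10.AB

theorem s_BADA : S_BADA := by
  intro K _ b k h
  refine h.1 (algebraMap K (AlgebraicClosure K) b) ?_ ?_
  · simp
  · rw [derivative_mul]
    simp [derivative_pow]

theorem s_CA : S_CA := by
  intro hC K _ _ n hn
  obtain ⟨hfin, hcard⟩ := hC K (n - 4)
  have key : ∀ x : {x : (K × Mon K (n - 2)) × (K × Mon K (n - 2)) // x.1 ≠ x.2 ∧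
      (X - C x.1.1) ^ 2 * x.1.2.1 = (X - C x.2.1) ^ 2 * x.2.2.1},
      ∃ m : Mon K (n - 4), x.1.1.2.1 = (X - C x.1.2.1) ^ 2 * m.1 := by
    rintro ⟨⟨⟨b, h, hm, hd⟩, ⟨b', h', hm', hd'⟩⟩, hne, he⟩
    dsimp only at hne he ⊢
    have hbb : b ≠ b' := by
      rintro rfl
      have h1 : h = h' := mul_left_cancel₀ (pow_ne_zero 2 (X_sub_C_ne_zero b)) he
      subst h1
      exact hne rfl
    have hcop : IsCoprime ((X - C b') ^ 2) ((X - C b) ^ 2) :=
      (isCoprime_X_sub_C_of_isUnit_sub (isUnit_iff_ne_zero.2 (sub_ne_zero.2 hbb.symm))).pow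
    obtain ⟨m, hmm⟩ : (X - C b') ^ 2 ∣ h := hcop.dvd_of_dvd_mul_left ⟨h', he⟩
    have mm : m.Monic := ((monic_X_sub_C b').pow 2).of_mul_monic_left (by rw [← hmm]; exact hm)
    refine ⟨⟨m, mm, ?_⟩, hmm⟩
    have h1 := congrArg natDegree hmm
    rw [((monic_X_sub_C b').pow 2).natDegree_mul mm, natDegree_pow, natDegree_X_sub_C, hd] at h1
    omega
  choose f hf using key
  have hle : Nat.card {x : (K × Mon K (n - 2)) × (K × Mon K (n - 2)) // x.1 ≠ x.2 ∧
      (X - C x.1.1) ^ 2 * x.1.2.1 = (X - C x.2.1) ^ 2 * x.2.2.1} ≤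
      Nat.card (K × K × Mon K (n - 4)) := by
    refine Nat.card_le_card_of_injective (fun x => (x.1.1.1, x.1.2.1, f x)) ?_
    intro x y hxy
    simp only [Prod.mk.injEq] at hxy
    obtain ⟨h1, h2, h3⟩ := hxy
    have h4 := hf x
    have h5 := hf y
    rw [h2, h3, ← h5] at h4
    have h6 : x.1.2.2.1 = y.1.2.2.1 := by
      have h7 := x.2.2
      have h8 := y.2.2
      rw [h1, h2, h4, h8] at h7
      exact (mul_left_cancel₀ (pow_ne_zero 2 (X_sub_C_ne_zero _)) h7).symm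
    apply Subtype.ext
    refine Prod.ext (Prod.ext h1 (Subtype.ext h4)) (Prod.ext h2 (Subtype.ext h6))
  refine hle.trans ?_
  rw [Nat.card_prod, Nat.card_prod, hcard]
  have h1 : n - 2 = (n - 4) + 1 + 1 := by omega
  rw [h1, pow_succ, pow_succ]
  apply le_of_eq
  ring

end Pool.Agent.L7h93.AB
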